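import Mathlib
import Pool.Agent.Work.MP_ce2d68_st.Interface

set_option autoImplicit false

open Polynomial Filter Topology
open scoped ComplexConjugate

/-! Block `BAS` of the structure theorem for sector constants (helper55). -/

namespace Pool.Agent.Work.MP_ce2d68_st.helper55

open Pool.Agent.Work.MP_ce2d68_st

theorem map_map_rat (P : ℤ[X]) :
    (P.map (Int.castRingHom ℚ)).map (algebraMap ℚ ℂ) = cp P := by
  unfold cp
  rw [Polynomial.map_map]
  congr 1

theorem irr_rat {P : ℤ[X]} (hm : P.Monic) (hi : Irreducible P) :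
    Irreducible (P.map (Int.castRingHom ℚ)) := by
  have h := (Polynomial.Monic.irreducible_iff_irreducible_map_fraction_map (K := ℚ) hm).1 hi
  have e : algebraMap ℤ ℚ = Int.castRingHom ℚ := by ext; simp
  rwa [e] at h

theorem cp_monic {P : ℤ[X]} (hm : P.Monic) : (cp P).Monic := hm.map _

theorem cp_natDegree {P : ℤ[X]} (hm : P.Monic) : (cp P).natDegree = P.natDegree :=
  hm.natDegree_map _

theorem cp_separable {P : ℤ[X]} (hm : P.Monic) (hi : Irreducible P) : (cp P).Separable := by
  rw [← map_map_rat]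
  exact (irr_rat hm hi).separable.map

theorem cp_nodup {P : ℤ[X]} (hm : P.Monic) (hi : Irreducible P) : (cp P).roots.Nodup :=
  nodup_roots (cp_separable hm hi)

theorem rts_val {P : ℤ[X]} (hm : P.Monic) (hi : Irreducible P) : (rts P).val = (cp P).roots := by
  unfold rts
  rw [Multiset.toFinset_val, Multiset.dedup_eq_self.2 (cp_nodup hm hi)]

theorem conj_ev (P : ℤ[X]) (z : ℂ) : ev P (conj z) = conj (ev P z) := by
  unfold ev cp
  rw [Polynomial.eval_map, Polynomial.eval_map, Polynomial.eval₂_eq_sum_range,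
    Polynomial.eval₂_eq_sum_range, map_sum]
  refine Finset.sum_congr rfl fun i _ => ?_
  simp

theorem mem_rts {P : ℤ[X]} (hm : P.Monic) (z : ℂ) : z ∈ rts P ↔ ev P z = 0 := by
  unfold rts ev
  rw [Multiset.mem_toFinset, Polynomial.mem_roots (cp_monic hm).ne_zero]
  rfl

theorem stmt_BAS : Stmt_BAS := by
  intro P hm hi
  have hv := rts_val hm hi
  have hs : (cp P).Splits := IsAlgClosed.splits _
  refine ⟨hm.natDegree_pos_of_not_isUnit hi.not_isUnit, ?_, ?_, ?_, ?_⟩
  · have h := hs.eq_prod_roots_of_monic (cp_monic hm)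
    rw [Finset.prod, hv]
    exact h
  · rw [Finset.card, hv, ← cp_natDegree hm]
    exact hs.natDegree_eq_card_roots.symm
  · intro a ha
    rw [mem_rts hm] at ha ⊢
    rw [conj_ev, ha, map_zero]
  · have h := mahlerMeasure_eq_leadingCoeff_mul_prod_roots (cp P)
    rw [(cp_monic hm).leadingCoeff, norm_one, one_mul] at h
    unfold MM
    rw [h]
    have e : ((cp P).roots.map (fun a => max 1 ‖a‖)).prod = ∏ a ∈ rts P, max 1 ‖a‖ := by
      rw [Finset.prod, hv]
    rw [e, Real.log_prod]
    · refine Finset.sum_congr rfl fun a _ => ?_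
      rw [Real.posLog_eq_log_max_one (norm_nonneg a)]
    · intro a _
      positivity

end Pool.Agent.Work.MP_ce2d68_st.helper55
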