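import Mathlib
import Pool.Agent.Work.MP_ce2d68_st.Interface
import Pool.Agent.Work.MP_ce2d68_st_helper55.BAS

set_option autoImplicit false

open Polynomial Filter Topology
open scoped ComplexConjugate

/-! Block `BASF` of the structure theorem for sector constants (helper55). -/

namespace Pool.Agent.Work.MP_ce2d68_st.helper55

open Pool.Agent.Work.MP_ce2d68_st

theorem eq_of_common_root {P Q : ℤ[X]} (hP : P.Monic) (hPi : Irreducible P) (hQ : Q.Monic)
    (hQi : Irreducible Q) {z : ℂ} (h1 : ev P z = 0) (h2 : ev Q z = 0) : P = Q := by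
  have key : ∀ R : ℤ[X], R.Monic → Irreducible R → ev R z = 0 →
      R.map (Int.castRingHom ℚ) = minpoly ℚ z := by
    intro R hR hRi h
    refine minpoly.eq_of_irreducible_of_monic (irr_rat hR hRi) ?_ (hR.map _)
    rw [Polynomial.aeval_def, Polynomial.eval₂_eq_eval_map, map_map_rat]
    exact h
  have h := (key P hP hPi h1).trans (key Q hQ hQi h2).symm
  exact Polynomial.map_injective _ Int.cast_injective h

theorem disj_rts {P Q : ℤ[X]} (hP : P.Monic) (hPi : Irreducible P) (hQ : Q.Monic)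
    (hQi : Irreducible Q) (h : P ≠ Q) : Disjoint (rts P) (rts Q) := by
  rw [Finset.disjoint_left]
  intro z h1 h2
  rw [mem_rts hP] at h1
  rw [mem_rts hQ] at h2
  exact h (eq_of_common_root hP hPi hQ hQi h1 h2)

theorem stmt_BASF (hBAS : Stmt_BAS) : Stmt_BASF := by
  intro Ps hF
  have hd : ∀ P ∈ Ps, ∀ Q ∈ Ps, P ≠ Q → Disjoint (rts P) (rts Q) := fun P hP Q hQ h =>
    disj_rts (hF P hP).1 (hF P hP).2 (hF Q hQ).1 (hF Q hQ).2 h
  have hpd : (Ps : Set ℤ[X]).PairwiseDisjoint rts := fun P hP Q hQ h => hd P hP Q hQ h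
  refine ⟨?_, ?_, ?_, ?_, ?_, hd⟩
  · exact monic_prod_of_monic _ _ fun P hP => (hF P hP).1
  · unfold pr dg
    exact natDegree_prod_of_monic _ _ fun P hP => (hF P hP).1
  · unfold rs
    rw [Finset.prod_biUnion hpd]
    unfold pr cp
    rw [Polynomial.map_prod]
    refine Finset.prod_congr rfl fun P hP => ?_
    exact (hBAS P (hF P hP).1 (hF P hP).2).2.1
  · unfold rs dg
    rw [Finset.card_biUnion hd]
    exact Finset.sum_congr rfl fun P hP => (hBAS P (hF P hP).1 (hF P hP).2).2.2.1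
  · intro a ha
    unfold rs at ha ⊢
    rw [Finset.mem_biUnion] at ha ⊢
    obtain ⟨P, hP, h⟩ := ha
    exact ⟨P, hP, (hBAS P (hF P hP).1 (hF P hP).2).2.2.2.1 a h⟩

end Pool.Agent.Work.MP_ce2d68_st.helper55
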