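import Mathlib
import Pool.Agent.Work.MP_ce2d68_st.Interface
import Pool.Agent.Work.MP_ce2d68_st_helper55.BASF

set_option autoImplicit false

open Polynomial Filter Topology
open scoped ComplexConjugate

/-! Blocks `RES` and `DSC` of the structure theorem for sector constants (helper55). -/

namespace Pool.Agent.Work.MP_ce2d68_st.helper55

open Pool.Agent.Work.MP_ce2d68_st

theorem prod_ev_int {P Q : ℤ[X]} (hm : P.Monic) (hi : Irreducible P) :
    ∏ a ∈ rts P, ev Q a = ((resultant P Q P.natDegree Q.natDegree : ℤ) : ℂ) := by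
  have h := resultant_eq_prod_eval (cp P) (cp Q) Q.natDegree (natDegree_map_le)
    (IsAlgClosed.splits _)
  rw [(cp_monic hm).leadingCoeff, one_pow, one_mul, cp_natDegree hm] at h
  unfold cp at h
  rw [resultant_map_map] at h
  rw [Finset.prod, rts_val hm hi]
  exact h.symm

theorem stmt_RES (_hBAS : Stmt_BAS) : Stmt_RES := by
  intro P Q hm hi hne
  have h := prod_ev_int (Q := Q) hm hi
  have hz : (resultant P Q P.natDegree Q.natDegree : ℤ) ≠ 0 := by
    intro h0
    rw [h0, Int.cast_zero, Finset.prod_eq_zero_iff] at h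
    obtain ⟨a, ha, h1⟩ := h
    exact hne a ha h1
  rw [← norm_prod, h, Complex.norm_intCast]
  exact_mod_cast Int.one_le_abs hz

theorem ev_derivative_prod (Ps : Finset ℤ[X]) (hF : Fam Ps) (hBAS : Stmt_BAS) {a : ℂ}
    (ha : a ∈ rs Ps) : ev (derivative (pr Ps)) a = ∏ b ∈ (rs Ps).erase a, (a - b) := by
  have h := (stmt_BASF hBAS Ps hF).2.2.1
  have e : cp (derivative (pr Ps)) = derivative (cp (pr Ps)) := by
    unfold cp
    rw [derivative_map]
  unfold ev
  rw [e, h, derivative_prod_finset, eval_finsetSum, Finset.sum_eq_single a]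
  · simp only [derivative_sub, derivative_X, derivative_C, sub_zero, mul_one]
    rw [eval_prod]
    simp
  · intro b hb hba
    simp only [derivative_sub, derivative_X, derivative_C, sub_zero, mul_one]
    rw [eval_prod]
    refine Finset.prod_eq_zero (Finset.mem_erase.2 ⟨hba.symm, ha⟩) ?_
    simp
  · intro h1
    exact absurd ha h1

theorem stmt_DSC (hBAS : Stmt_BAS) (_hBASF : Stmt_BASF) (hRES : Stmt_RES) : Stmt_DSC := by
  intro Ps hF P hP
  have hsub : ∀ a ∈ rts P, a ∈ rs Ps := fun a ha => by
    unfold rs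
    exact Finset.mem_biUnion.2 ⟨P, hP, ha⟩
  have h := hRES P (derivative (pr Ps)) (hF P hP).1 (hF P hP).2 (fun a ha => by
    rw [ev_derivative_prod Ps hF hBAS (hsub a ha), Finset.prod_ne_zero_iff]
    intro b hb
    exact sub_ne_zero.2 (Finset.ne_of_mem_erase hb).symm)
  refine h.trans (le_of_eq (Finset.prod_congr rfl fun a ha => ?_))
  rw [ev_derivative_prod Ps hF hBAS (hsub a ha), norm_prod]

end Pool.Agent.Work.MP_ce2d68_st.helper55
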