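import Mathlib
import Pool.Agent.Work.MP_ce2d68_st.Interface
import Pool.Agent.Work.MP_ce2d68_st_helper55.RES

/-! `stmt_DSC` is proved in `RES.lean`. -/
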